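import Pool.Agent.L0h14.OG.Defs
import Pool.Agent.L0h3.OE.Class
import Pool.Agent.L0h59.OE.KS
import Pool.Agent.L0h59.OE.Pow
import Pool.Agent.L0h65.OE.Small
import Pool.Agent.L0h71.OE.Dual
import Pool.Agent.L0h71.OE.Cnt

/-!
# Indecomposable direct summands of motives of curves over arbitrary perfect fields
-/

universe u v

open CategoryTheory

set_option autoImplicit false

namespace Pool.Agent.L0h14.OG

open Pool.Agent.N174.OC Pool.Agent.L0h14.ORN Pool.Agent.Y107 Pool.Agent.L0h14.OE Pool.Agent.L0h3.OE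

variable {𝒱 : Type u} [Category.{v} 𝒱] [Preadditive 𝒱] [Linear ℚ 𝒱]

/-- an indecomposable direct summand with `p ≫ tp p ≠ 0` is self-dual -/
lemma selfdual (T : TraceTheory 𝒱) {C : 𝒱} {p : T.NH C C} (hp : T.DivN p) {a : C ⟶ C} (hap : T.cl a = p)
    (hw : T.tr C (a ≫ T.tp a) ≠ 0) : T.Cong p (T.tN p) 0 := by
  have hpp : T.nc p p = p := hp.2.1
  have hpt : T.nc (T.tN p) (T.tN p) = T.tN p := by rw [← tN_nc, hpp]
  have htm : T.tN p ∈ T.gN C C 0 := tN_mem0 _ hp.1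
  have hx0 : T.nc (T.nc p (T.tN p)) p ≠ 0 := by
    intro h
    apply hw
    rw [← hap, T.tN_cl, T.nc_cl, T.nc_cl, T.cl_eq_zero] at h
    have h1 := h (𝟙 C)
    rw [Category.comp_id, T.tr_comm, ← Category.assoc] at h1
    have h2 : a ≫ a - a ∈ T.triv C C := by
      rw [← hap, T.nc_cl, T.cl_eq] at hpp
      exact hpp
    have h3 := h2 (T.tp a)
    rw [Preadditive.sub_comp, map_sub, h1, zero_sub, neg_eq_zero] at h3
    exact h3
  obtain ⟨y, hy, hy1, hy2, hy3, hy4⟩ := hp.2.2.2 (T.nc (T.nc p (T.tN p)) p)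
    (by
      have := T.nc_mem (T.nc_mem hp.1 htm) hp.1
      simpa using this)
    (by rw [← T.nc_assoc, ← T.nc_assoc, hpp]) (by rw [T.nc_assoc, hpp]) hx0
  have hu : T.nc p (T.tN p) ∈ T.gN C C 0 := by
    have := T.nc_mem hp.1 htm
    simpa using this
  have hwm : T.nc (T.tN p) y ∈ T.gN C C 0 := by
    have := T.nc_mem htm hy
    simpa using this
  have huw : T.nc (T.nc p (T.tN p)) (T.nc (T.tN p) y) = p := by
    calc T.nc (T.nc p (T.tN p)) (T.nc (T.tN p) y) = T.nc (T.nc p (T.tN p)) y := by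
          rw [← T.nc_assoc, T.nc_assoc p, hpt]
      _ = T.nc (T.nc p (T.tN p)) (T.nc p y) := by rw [hy1]
      _ = T.nc (T.nc (T.nc p (T.tN p)) p) y := by rw [T.nc_assoc _ p y]
      _ = p := hy3
  have k1 : T.nc (T.tN p) (T.nc (T.tN p) y) = T.nc (T.tN p) y := by rw [← T.nc_assoc, hpt]
  have k2 : T.nc (T.nc (T.tN p) y) p = T.nc (T.tN p) y := by rw [T.nc_assoc, hy2]
  have k3 : T.nc p (T.nc p (T.tN p)) = T.nc p (T.tN p) := by rw [← T.nc_assoc, hpp]
  have k4 : T.nc (T.nc p (T.tN p)) (T.tN p) = T.nc p (T.tN p) := by rw [T.nc_assoc, hpt]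
  set uu := T.nc p (T.tN p) with huu
  set ww := T.nc (T.tN p) y with hww
  have hwu : T.nc ww uu = T.tN p := by
    have h := idem_eq T hp (e := T.tN (T.nc ww uu)) ?_ ?_ ?_ ?_ ?_
    · rw [← h, tN_tN]
    · refine tN_mem0 _ ?_
      have := T.nc_mem hwm hu
      simpa using this
    · have : T.nc p (T.tN (T.nc ww uu)) = T.tN (T.nc (T.nc ww uu) (T.tN p)) := by
        rw [tN_nc T (T.nc ww uu), tN_tN]
      rw [this, T.nc_assoc, k4]
    · have : T.nc (T.tN (T.nc ww uu)) p = T.tN (T.nc (T.tN p) (T.nc ww uu)) := by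
        rw [tN_nc T (T.tN p), tN_tN]
      rw [this, ← T.nc_assoc, k1]
    · rw [← tN_nc]
      congr 1
      rw [T.nc_assoc, ← T.nc_assoc uu, huw, ← T.nc_assoc, k2]
    · intro h
      have h0 : T.nc ww uu = 0 := by
        rw [← tN_tN T (T.nc ww uu), h, map_zero]
      apply hp.2.2.1
      calc p = T.nc p p := hpp.symm
        _ = T.nc (T.nc uu ww) (T.nc uu ww) := by rw [huw]
        _ = T.nc uu (T.nc (T.nc ww uu) ww) := by simp only [T.nc_assoc]
        _ = 0 := by rw [h0, map_zero, LinearMap.zero_apply, map_zero]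
  exact ⟨uu, hu, ww, by rw [neg_zero]; exact hwm, k3, k4, k1, k2, huw, hwu⟩

/-- idempotents in the category of twisted numerical motives -/
lemma divN_of_divC (T : TraceTheory 𝒱) {C : 𝒱} {k : ℤ}
    {p : (⟨C, k⟩ : TraceTheory.Tw T) ⟶ ⟨C, k⟩} (hp : DivC p) : T.DivN p.1 := by
  obtain ⟨hp1, hp2, hp3⟩ := hp
  have ek : T.gN C C (k - k) = T.gN C C 0 := by rw [sub_self]
  have hp0 : p.1 ∈ T.gN C C 0 := (le_of_eq ek) p.2
  refine ⟨hp0, congrArg Subtype.val hp1, fun h => hp2 (Subtype.ext h), ?_⟩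
  intro x hx hx1 hx2 hx3
  obtain ⟨y, hy1, hy2, hy3, hy4⟩ := hp3 ⟨x, by
    change x ∈ T.gN C C (k - k)
    rwa [sub_self]⟩ (Subtype.ext hx1) (Subtype.ext hx2) (fun h => hx3 (congrArg Subtype.val h))
  exact ⟨y.1, (le_of_eq ek) y.2, congrArg Subtype.val hy1, congrArg Subtype.val hy2, congrArg Subtype.val hy3,
    congrArg Subtype.val hy4⟩

/-- an indecomposable direct summand of `h(C)` with a non-zero map from `h(Z)(k)` is a direct summand of `h(Z)(k)` -/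
lemma summand (T : TraceTheory 𝒱) {C Z : 𝒱} {p : T.NH C C} (hp : T.DivN p) {x : Z ⟶ C}
    (hx : T.nc (T.cl x) p ≠ 0) : ∃ q : T.NH Z Z, T.DivN q ∧ ∃ s : ℤ, T.Cong p q s := by
  -- a homogeneous one
  have hom : ∃ (j : ℤ) (x : Z ⟶ C), x ∈ T.gr Z C j ∧ T.nc (T.cl x) p ≠ 0 := by
    by_contra hcon
    push Not at hcon
    apply hx
    refine hom_ind T (P := fun x => T.nc (T.cl x) p = 0) x (fun j x hx => hcon j x hx) ?_ ?_
    · rw [map_zero, map_zero, LinearMap.zero_apply]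
    · intro g g' hg hg'
      rw [map_add, map_add, LinearMap.add_apply, hg, hg', add_zero]
  obtain ⟨j, x, hxj, hx0⟩ := hom
  have hpp : T.nc p p = p := hp.2.1
  have e1 : (0 : ℤ) - -j = j := by ring
  let e : (⟨C, 0⟩ : TraceTheory.Tw T) ⟶ ⟨C, 0⟩ := ⟨p, by
    change p ∈ T.gN C C (0 - 0)
    rw [sub_zero]
    exact hp.1⟩
  let h : (⟨Z, -j⟩ : TraceTheory.Tw T) ⟶ ⟨C, 0⟩ := ⟨T.nc (T.cl x) p, by
    change T.nc (T.cl x) p ∈ T.gN Z C (0 - -j)
    have h1 : T.cl x ∈ T.gN Z C j := ⟨x, hxj, rfl⟩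
    have := T.nc_mem h1 hp.1
    rwa [add_zero, ← e1] at this⟩
  obtain ⟨q, l, l', hq, h1, h2, h3, h4, h5⟩ := L0h59.OE.lemL (L0h65.OE.t_Fd T).2
    (fun {A B} a => L0h59.OE.t_ND T a) e h (Subtype.ext hpp)
    (Subtype.ext (by
      change T.nc (T.nc (T.cl x) p) p = T.nc (T.cl x) p
      rw [T.nc_assoc, hpp]))
    (fun h0 => hx0 (congrArg Subtype.val h0))
  have k1 : T.nc l.1 l'.1 = q.1 := congrArg Subtype.val h1
  have k2 : T.nc q.1 l.1 = l.1 := congrArg Subtype.val h2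
  have k3 : T.nc l.1 p = l.1 := congrArg Subtype.val h3
  have k4 : T.nc l'.1 q.1 = l'.1 := congrArg Subtype.val h4
  have k5 : T.nc p l'.1 = l'.1 := congrArg Subtype.val h5
  have hqN := divN_of_divC T hq
  have ek : T.gN Z C (0 - -j) = T.gN Z C j := by rw [e1]
  have ek' : T.gN C Z (-j - 0) = T.gN C Z (-j) := by rw [sub_zero]
  have hl : l.1 ∈ T.gN Z C j := (le_of_eq ek) l.2
  have hl' : l'.1 ∈ T.gN C Z (-j) := (le_of_eq ek') l'.2
  have he : T.nc l'.1 l.1 = p := by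
    refine idem_eq T hp ?_ ?_ ?_ ?_ ?_
    · have := T.nc_mem hl' hl
      rwa [neg_add_cancel] at this
    · rw [← T.nc_assoc, k5]
    · rw [T.nc_assoc, k3]
    · rw [T.nc_assoc, ← T.nc_assoc l.1, k1, k2]
    · intro h0
      apply hqN.2.2.1
      calc q.1 = T.nc q.1 q.1 := hqN.2.1.symm
        _ = T.nc (T.nc l.1 l'.1) (T.nc l.1 l'.1) := by rw [k1]
        _ = T.nc l.1 (T.nc (T.nc l'.1 l.1) l'.1) := by simp only [T.nc_assoc]
        _ = 0 := by rw [h0, map_zero, LinearMap.zero_apply, map_zero]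
  exact ⟨q.1, hqN, -j, l'.1, hl', l.1, by rwa [neg_neg], k5, k4, k2, k3, he, k1⟩

/-- the classification -/
theorem classify (T : FieldTheory 𝒱) (C : 𝒱) (hC : T.dim C ≤ 1) (p : T.NH C C) (hp : T.DivN p) :
    (∃ Z : 𝒱, T.dim Z = 0 ∧ ∃ q : T.NH Z Z, T.DivN q ∧ ∃ s : ℤ, T.Cong p q s) ∨
    (T.dim C = 1 ∧ (∀ Z : 𝒱, T.dim Z = 0 → ∀ x : Z ⟶ C, T.nc (T.cl x) p = 0) ∧ T.Cong p (T.tN p) 0) := by
  rcases Nat.lt_or_ge (T.dim C) 1 with hd | hd
  · left
    refine ⟨C, by omega, p, hp, 0, p, hp.1, p, by rw [neg_zero]; exact hp.1, ?_⟩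
    have hpp : T.nc p p = p := hp.2.1
    exact ⟨hpp, hpp, hpp, hpp, hpp, hpp⟩
  · have hd1 : T.dim C = 1 := by omega
    by_cases hx : ∃ (Z : 𝒱) (_ : T.dim Z = 0) (x : Z ⟶ C), T.nc (T.cl x) p ≠ 0
    · left
      obtain ⟨Z, hZ, x, hx⟩ := hx
      obtain ⟨q, hq, s, hs⟩ := summand T.toTraceTheory hp hx
      exact ⟨Z, hZ, q, hq, s, hs⟩
    · push Not at hx
      right
      refine ⟨hd1, hx, ?_⟩
      obtain ⟨a, ha, hap⟩ := hp.1
      refine selfdual T.toTraceTheory hp hap fun hw => ?_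
      have h1 : ∀ Z : 𝒱, T.dim Z = 0 → ∀ x : Z ⟶ C, x ≫ a ∈ T.triv Z C := by
        intro Z hZ x
        have := hx Z hZ x
        rwa [← hap, T.nc_cl, T.cl_eq_zero] at this
      have h2 : ∀ Z : 𝒱, T.dim Z = 0 → ∀ y : C ⟶ Z, a ≫ y ∈ T.triv C Z := by
        intro Z hZ y z
        rw [T.tr_comm, ← Category.assoc]
        exact h1 Z hZ z y
      have h3 := T.weil1 C hd1 a ha h1 h2 hw
      exact hp.2.2.1 (by rw [← hap]; exact (T.cl_eq_zero).2 h3)

/-- direct summands of motives of varieties of dimension zero are self-dual -/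
theorem classify0 (T : FieldTheory 𝒱) (Z : 𝒱) (hZ : T.dim Z = 0) (p : T.NH Z Z) (hp : T.DivN p) :
    T.Cong p (T.tN p) 0 := by
  obtain ⟨a, ha, hap⟩ := hp.1
  refine selfdual T.toTraceTheory hp hap fun hw => ?_
  have h3 := T.weil0 Z hZ a ha hw
  exact hp.2.2.1 (by rw [← hap]; exact (T.cl_eq_zero).2 h3)

end Pool.Agent.L0h14.OG
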