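import Pool.Agent.L0h14.OE.Defs

/-!
# Correspondences over an arbitrary perfect field: curves and zero-dimensional varieties
-/

universe u v

open CategoryTheory

set_option autoImplicit false

namespace Pool.Agent.L0h14.OG

open Pool.Agent.N174.OC Pool.Agent.L0h14.ORN Pool.Agent.Y107 Pool.Agent.L0h14.OE

variable {𝒱 : Type u} [Category.{v} 𝒱] [Preadditive 𝒱] [Linear ℚ 𝒱]

variable (𝒱) in
/-- The formal properties of the correspondences between smooth projective irreducible varieties over a perfect field, all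
of them being well known: those of `TraceTheory`, and for varieties of dimension zero and curves

* numerically trivial endomorphisms of finite direct sums of motives of varieties of dimension at most one are nilpotent
(finite-dimensionality in the sense of Kimura);
* `(a · a) = tr Z (a ≫ tp a)` is not zero for a cycle `a` on `Z × Z` which is not zero, if `dim Z = 0`;
* for a divisor `a` on the product `C × C` of a curve with itself which is numerically orthogonal to the fibres of both
projections, `(a · a) = tr C (a ≫ tp a)` is not zero unless `a` is numerically trivial (Castelnuovo-Severi, Weil). -/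
structure FieldTheory extends TraceTheory 𝒱 where
  curves : toChowTheory.Finite (fun Z => dim Z ≤ 1)
  weil0 : ∀ Z : 𝒱, dim Z = 0 → ∀ a ∈ gr Z Z 0, tr Z (a ≫ tp a) = 0 → a ∈ toChowTheory.triv Z Z
  weil1 : ∀ C : 𝒱, dim C = 1 → ∀ a ∈ gr C C 0,
    (∀ Z : 𝒱, dim Z = 0 → ∀ x : Z ⟶ C, x ≫ a ∈ toChowTheory.triv Z C) →
    (∀ Z : 𝒱, dim Z = 0 → ∀ y : C ⟶ Z, a ≫ y ∈ toChowTheory.triv C Z) →
    tr C (a ≫ tp a) = 0 → a ∈ toChowTheory.triv C C

variable (T : TraceTheory 𝒱)

/-- The correspondences of degree `i` from `X` to `Y` which are supported on products `D × D'` of subvarieties with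
`dim D + dim D' ≤ dim Y + 1 - i`: sums of compositions of the restriction to `D`, of a correspondence between (smooth models,
or alterations, of) `D` and `D'`, and of the push-forward from `D'`. If `dim X = dim Y ≤ 4` and `i < 0`, or
`dim X = dim Y ≤ 3` and `i = 0`, the condition is satisfied for all proper subvarieties `D` and `D'`. -/
def Supp (i : ℤ) (X Y : 𝒱) : Submodule ℚ (X ⟶ Y) :=
  Submodule.span ℚ {f | ∃ (D D' : 𝒱) (a : X ⟶ D) (z : D ⟶ D') (b : D' ⟶ Y), T.dim D + T.dim D' ≤ T.dim Y + 1 - i ∧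
    a ∈ T.gr X D 0 ∧ z ∈ T.gr D D' (i - (T.dim Y - T.dim D')) ∧ b ∈ T.gr D' Y (T.dim Y - T.dim D') ∧ f = a ≫ z ≫ b}

/-- The sums of correspondences in `Supp i X Y` and of correspondences which come from varieties of dimension at most one. -/
def Thin (i : ℤ) (X Y : 𝒱) : Submodule ℚ (X ⟶ Y) := Via (fun Z => T.dim Z ≤ 1) X Y ⊔ Supp T i X Y

/-- There are correspondences `γ` and `γ'` of degree zero between `X` and `Y` which are inverse to each other, modulo
numerical equivalence,

* on the cycles of codimension `i`, `2 i + 2 ≤ n`, of `X` and of `Y` (and of their products with varieties of dimension zero),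
* on the correspondences from `h^1(C)` to `h^(2i+1)(X)` and `h^(2i+1)(Y)`, `2 i + 3 ≤ n`, for the curves `C`, that is on
the cycles of codimension `i + 1` on `C × X` and `C × Y` which are orthogonal to the varieties of dimension zero.

For `n ≤ 2` this is satisfied if `X` and `Y` are geometrically irreducible. For `n = 3` it means that `h^1(X)` and `h^1(Y)` are isomorphic, and for
`n = 4` that moreover the Néron-Severi groups of `X` and `Y` with rational coefficients are isomorphic. -/
def IsoLow (X Y : 𝒱) : Prop :=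
  ∃ γ ∈ T.gr X Y 0, ∃ γ' ∈ T.gr Y X 0,
    (∀ (Z : 𝒱) (i : ℤ), T.dim Z = 0 → 2 * i + 2 ≤ T.dim X → (∀ f ∈ T.gr Z X i, f ≫ γ ≫ γ' - f ∈ T.triv Z X) ∧
      ∀ f ∈ T.gr Z Y i, f ≫ γ' ≫ γ - f ∈ T.triv Z Y) ∧
    ∀ (C : 𝒱) (i : ℤ), T.dim C = 1 → 2 * i + 3 ≤ T.dim X →
      (∀ f ∈ T.gr C X i, (∀ Z : 𝒱, T.dim Z = 0 → ∀ x : Z ⟶ C, x ≫ f ∈ T.triv Z X) → f ≫ γ ≫ γ' - f ∈ T.triv C X) ∧
      ∀ f ∈ T.gr C Y i, (∀ Z : 𝒱, T.dim Z = 0 → ∀ x : Z ⟶ C, x ≫ f ∈ T.triv Z Y) → f ≫ γ' ≫ γ - f ∈ T.triv C Y

end Pool.Agent.L0h14.OG
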