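import Pool.Agent.L0h14.OR.Num
import Pool.Agent.L0h14.OR.Lift
import Pool.Agent.L0h14.OE.Hom

/-!
# Components of negative degree which come from finite-dimensional motives
-/

universe u v

open CategoryTheory

set_option autoImplicit false

namespace Pool.Agent.L0h14.OG

open Pool.Agent.N174.OC Pool.Agent.L0h14.ORN Pool.Agent.Y107

variable {𝒱 : Type u} [Category.{v} 𝒱] [Preadditive 𝒱] [Linear ℚ 𝒱]

lemma z0_invP (T : ChowTheory 𝒱) {P : 𝒱 → Prop} {X Y : 𝒱} {v : X ⟶ Y} {w : Y ⟶ X} (hvw : v ≫ w = 𝟙 X)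
    (hv : ∀ i < 0, cmp (T.isInternal X Y) i v ∈ Via P X Y) (hw : ∀ i < 0, cmp (T.isInternal Y X) i w ∈ Via P Y X) :
    cmp (T.isInternal X Y) 0 v ≫ cmp (T.isInternal Y X) 0 w - 𝟙 X ∈ Via P X X := by
  have h := OE.z0_comp T.toCor v w (Via P X X) (fun i hi => by
    rcases lt_or_gt_of_ne hi with h | h
    · exact via_right (hv i h) _
    · exact via_left _ (hw (-i) (by omega)))
  have e1 : cmp (T.isInternal X X) 0 (v ≫ w) = 𝟙 X := by
    rw [hvw]
    exact cmp_of_mem _ (T.id_mem X)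
  rw [e1] at h
  have := neg_mem h
  rwa [neg_sub] at this

/-- The Chow motives are isomorphic if and only if the numerical motives are. -/
theorem iff_num (T : ChowTheory 𝒱) (P : 𝒱 → Prop) (hP : T.Finite P) {X Y : 𝒱} {v : X ⟶ Y} {w : Y ⟶ X}
    (hvw : v ≫ w = 𝟙 X) (hwv : w ≫ v = 𝟙 Y)
    (h : (∀ i < 0, cmp (T.isInternal X Y) i v ∈ Via P X Y ∧ cmp (T.isInternal Y X) i w ∈ Via P Y X) ∨
      ∃ c : ℕ, T.dim X ≤ 2 * c + 2 ∧ T.dim Y ≤ 2 * c + 2 ∧ T.Level P c X ∧ T.Level P c Y) :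
    T.ChowIso X Y ↔ T.NumIso X Y := by
  constructor
  · rintro ⟨Z, hZ, Z', hZ', h1, h2⟩
    refine ⟨Z, hZ, Z', hZ', ?_, ?_⟩
    · rw [h1, sub_self]
      exact zero_mem _
    · rw [h2, sub_self]
      exact zero_mem _
  · intro hnum
    have hneg : ∀ i < 0, cmp (T.isInternal X Y) i v ∈ Via P X Y ∧ cmp (T.isInternal Y X) i w ∈ Via P Y X := by
      rcases h with h | ⟨c, hdX, hdY, hX, hY⟩
      · exact h
      · exact fun i hi => ⟨neg T hP.1 hdX hX hY i hi (cmp_mem (T.isInternal X Y) i v),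
          neg T hP.1 hdY hY hX i hi (cmp_mem (T.isInternal Y X) i w)⟩
    exact units T (fun _ _ _ _ J hJ u v huv hvu => Pool.Agent.L0h14.OR.lift_units J hJ u v huv hvu) hP
      (cmp_mem (T.isInternal X Y) 0 v) (cmp_mem (T.isInternal Y X) 0 w)
      (z0_invP T hvw (fun i hi => (hneg i hi).1) (fun i hi => (hneg i hi).2))
      (z0_invP T hwv (fun i hi => (hneg i hi).2) (fun i hi => (hneg i hi).1)) hnum

end Pool.Agent.L0h14.OG
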