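import Pool.Agent.L0h14.OG.Class
import Pool.Agent.L0h14.OE.Hom
import Pool.Agent.L0h3.OE.Cong
import Pool.Agent.L0h3.OE.Num
import Pool.Agent.L0h3.OE.ViaTw
import Pool.Agent.L0h71.OE.Tot
import Pool.Agent.L0h14.OR.Num
import Pool.Agent.L0h14.OR.Lift

/-!
# Counting direct summands, and the main theorem
-/

universe u v

open CategoryTheory

set_option autoImplicit false

namespace Pool.Agent.L0h14.OG

open Pool.Agent.N174.OC Pool.Agent.L0h14.ORN Pool.Agent.Y107 Pool.Agent.L0h14.OE Pool.Agent.L0h3.OE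

variable {𝒱 : Type u} [Category.{v} 𝒱] [Preadditive 𝒱] [Linear ℚ 𝒱]

/-- maps of low degree -/
lemma low_eq (T : TraceTheory 𝒱) {C X Y : 𝒱} {γ : X ⟶ Y} {γ' : Y ⟶ X} (hγ : γ ∈ T.gr X Y 0) (hγ' : γ' ∈ T.gr Y X 0)
    (p : T.NH C C) (i : ℤ)
    (h1 : ∀ f ∈ T.gr C X i, T.nc p (T.cl f) = T.cl f → f ≫ γ ≫ γ' - f ∈ T.triv C X)
    (h2 : ∀ f ∈ T.gr C Y i, T.nc p (T.cl f) = T.cl f → f ≫ γ' ≫ γ - f ∈ T.triv C Y) : T.D p X i = T.D p Y i := by
  refine L0h65.OE.finrank_eq_of_inverse _ _ (T.nc.flip (T.cl γ)) (T.nc.flip (T.cl γ')) ?_ ?_ ?_ ?_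
  · intro h hh
    rw [T.mem_FixN] at hh ⊢
    refine ⟨?_, ?_⟩
    · have := T.nc_mem hh.1 (show T.cl γ ∈ T.gN X Y 0 from ⟨γ, hγ, rfl⟩)
      rwa [add_zero] at this
    · rw [LinearMap.flip_apply, ← T.nc_assoc, hh.2]
  · intro h hh
    rw [T.mem_FixN] at hh ⊢
    refine ⟨?_, ?_⟩
    · have := T.nc_mem hh.1 (show T.cl γ' ∈ T.gN Y X 0 from ⟨γ', hγ', rfl⟩)
      rwa [add_zero] at this
    · rw [LinearMap.flip_apply, ← T.nc_assoc, hh.2]
  · intro h hh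
    rw [T.mem_FixN] at hh
    obtain ⟨f, hf, rfl⟩ := hh.1
    rw [LinearMap.flip_apply, LinearMap.flip_apply, T.nc_cl, T.nc_cl, T.cl_eq, Category.assoc]
    exact h1 f hf hh.2
  · intro h hh
    rw [T.mem_FixN] at hh
    obtain ⟨f, hf, rfl⟩ := hh.1
    rw [LinearMap.flip_apply, LinearMap.flip_apply, T.nc_cl, T.nc_cl, T.cl_eq, Category.assoc]
    exact h2 f hf hh.2

/-- a self-dual summand occurs in all degrees with the same multiplicity if it does so in low degrees -/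
lemma cnt_self (T : TraceTheory 𝒱) {C X Y : 𝒱} (hXY : T.dim X = T.dim Y) {v : X ⟶ Y} {w : Y ⟶ X} (hvw : v ≫ w = 𝟙 X)
    (hwv : w ≫ v = 𝟙 Y) {p : T.NH C C} (hp : T.DivN p) (hs : T.Cong p (T.tN p) 0)
    (hC : T.dim C ≤ T.dim X ∨ T.dim X = 0 ∧ T.dim C = 1)
    (hlow : ∀ i : ℤ, 2 * i + T.dim C + 2 ≤ T.dim X → T.D p X i = T.D p Y i) (i : ℤ) : T.D p X i = T.D p Y i := by
  have hd : ∀ (X : 𝒱) (j : ℤ), T.D p X j = T.D p X (T.dim X - T.dim C - j) := by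
    intro X j
    have h := t_Dual T C X p hp.1 hp.2.1 j
    have h' := t_Cong T C C X p _ 0 hs (T.dim X - T.dim C - j)
    rw [sub_zero] at h'
    rw [h, h']
  have htot : ∑ j ∈ Finset.Icc (-(T.dim C : ℤ)) (T.dim X), T.D p X j =
      ∑ j ∈ Finset.Icc (-(T.dim C : ℤ)) (T.dim X), T.D p Y j := by
    have h1 := t_Tot T C X p hp.1
    have h2 := t_Tot T C Y p hp.1
    have h3 := L0h65.OE.t_TotIso T C X Y p v w hvw hwv
    rw [h1, h2, ← hXY] at h3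
    exact h3
  refine cnt_aux (fun i => T.D p X i) (fun i => T.D p Y i) (((T.dim X : ℤ) - T.dim C - 2) / 2) (T.dim X - T.dim C)
    (-(T.dim C : ℤ)) (T.dim X) (fun i hi => hlow i ?_) (hd X) (fun i => ?_) ?_ ?_ ?_ htot i
  · omega
  · have := hd Y i
    rw [← hXY] at this
    exact this
  · omega
  · omega
  · omega

/-- indecomposable direct summands of motives of curves occur in `X` and `Y` with the same multiplicities -/
theorem count (T : FieldTheory 𝒱) {X Y : 𝒱} (hXY : T.dim X = T.dim Y) (hiso : IsoLow T.toTraceTheory X Y)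
    {v : X ⟶ Y} {w : Y ⟶ X} (hvw : v ≫ w = 𝟙 X) (hwv : w ≫ v = 𝟙 Y) (C : 𝒱) (hC : T.dim C ≤ 1) (p : T.NH C C)
    (hp : T.DivN p) (i : ℤ) : T.D p X i = T.D p Y i := by
  obtain ⟨γ, hγ, γ', hγ', hl0, hl1⟩ := hiso
  have zero : ∀ Z : 𝒱, T.dim Z = 0 → ∀ q : T.NH Z Z, T.DivN q → ∀ i : ℤ, T.D q X i = T.D q Y i := by
    intro Z hZ q hq
    refine cnt_self T.toTraceTheory hXY hvw hwv hq (classify0 T Z hZ q hq) (Or.inl (by omega)) fun i hi => ?_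
    refine low_eq T.toTraceTheory hγ hγ' q i (fun f hf _ => (hl0 Z i hZ ?_).1 f hf) (fun f hf _ => (hl0 Z i hZ ?_).2 f hf)
    · rw [hZ] at hi
      push_cast at hi
      omega
    · rw [hZ] at hi
      push_cast at hi
      omega
  rcases classify T C hC p hp with ⟨Z, hZ, q, hq, s, hs⟩ | ⟨hC1, hx, hs⟩
  · rw [t_Cong T.toTraceTheory C Z X p q s hs i, t_Cong T.toTraceTheory C Z Y p q s hs i]
    exact zero Z hZ q hq _
  · have hx' : ∀ (W : 𝒱) (f : C ⟶ W), T.nc p (T.cl f) = T.cl f → ∀ Z : 𝒱, T.dim Z = 0 → ∀ x : Z ⟶ C,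
        x ≫ f ∈ T.triv Z W := by
      intro W f hf Z hZ x
      rw [← T.cl_eq_zero, ← T.nc_cl, ← hf, ← T.nc_assoc, hx Z hZ x, map_zero, LinearMap.zero_apply]
    refine cnt_self T.toTraceTheory hXY hvw hwv hp hs ?_ (fun i hi => ?_) i
    · omega
    · rw [hC1] at hi
      push_cast at hi
      exact low_eq T.toTraceTheory hγ hγ' p i (fun f hf hpf => (hl1 C i hC1 (by omega)).1 f hf (hx' X f hpf))
        (fun f hf hpf => (hl1 C i hC1 (by omega)).2 f hf (hx' Y f hpf))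

/-- isomorphism of numerical motives -/
theorem num (T : TraceTheory 𝒱) {X Y : 𝒱}
    (hcnt : ∀ C : 𝒱, T.dim C ≤ 1 → ∀ p : T.NH C C, T.DivN p → ∀ i : ℤ, T.D p X i = T.D p Y i)
    {f : X ⟶ Y} (hf : f ∈ T.gr X Y 0) {g : Y ⟶ X} (hg : g ∈ T.gr Y X 0)
    (hfg : f ≫ g - 𝟙 X ∈ Via (fun Z => T.dim Z ≤ 1) X X)
    (hgf : g ≫ f - 𝟙 Y ∈ Via (fun Z => T.dim Z ≤ 1) Y Y) : T.NumIso X Y := by
  have hfg0 : f ≫ g - 𝟙 X ∈ T.gr X X 0 := by
    refine sub_mem ?_ (T.id_mem X)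
    have := T.comp_mem hf hg
    rwa [add_zero] at this
  have hgf0 : g ≫ f - 𝟙 Y ∈ T.gr Y Y 0 := by
    refine sub_mem ?_ (T.id_mem Y)
    have := T.comp_mem hg hf
    rwa [add_zero] at this
  obtain ⟨U, U', h1, h2⟩ := L0h59.OE.t_KS (𝒞 := TraceTheory.Tw T) (L0h65.OE.t_Fd T).2
    (fun {A B} a => L0h59.OE.t_ND T a) (fun U => T.dim U.V ≤ 1) ⟨X, 0⟩ ⟨Y, 0⟩
    (show (⟨X, 0⟩ : TraceTheory.Tw T) ⟶ ⟨Y, 0⟩ from ⟨T.cl f, f, hf, rfl⟩)
    (show (⟨Y, 0⟩ : TraceTheory.Tw T) ⟶ ⟨X, 0⟩ from ⟨T.cl g, g, hg, rfl⟩)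
    (by
      have h := t_ViaTw T X X (f ≫ g - 𝟙 X) hfg0 hfg
      convert h using 1
      refine Subtype.ext ?_
      change T.nc (T.cl f) (T.cl g) - T.one X = T.cl (f ≫ g - 𝟙 X)
      rw [T.nc_cl, map_sub]
      rfl)
    (by
      have h := t_ViaTw T Y Y (g ≫ f - 𝟙 Y) hgf0 hgf
      convert h using 1
      refine Subtype.ext ?_
      change T.nc (T.cl g) (T.cl f) - T.one Y = T.cl (g ≫ f - 𝟙 Y)
      rw [T.nc_cl, map_sub]
      rfl)
    (by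
      rintro ⟨C, k⟩ hC p hp
      have hC' : T.dim C ≤ 1 := hC
      have main : ∀ Z : 𝒱, Module.finrank ℚ (FixC p (⟨Z, 0⟩ : TraceTheory.Tw T)) = T.D p.1 Z (0 - k) := by
        intro Z
        unfold TraceTheory.D
        refine LinearEquiv.finrank_eq
          { toFun := fun h => ⟨h.1.1, (T.mem_FixN).2 ⟨h.1.2, congrArg Subtype.val h.2⟩⟩
            map_add' := fun h h' => rfl
            map_smul' := fun r h => rfl
            invFun := fun h => ⟨⟨h.1, ((T.mem_FixN).1 h.2).1⟩, Subtype.ext ((T.mem_FixN).1 h.2).2⟩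
            left_inv := fun h => rfl
            right_inv := fun h => rfl }
      rw [main X, main Y]
      exact hcnt C hC' p.1 (divN_of_divC T hp) _)
  obtain ⟨a, ha, ha'⟩ := U.2
  obtain ⟨b, hb, hb'⟩ := U'.2
  have e1 : T.nc (T.cl a) (T.cl b) = T.one X := by
    rw [ha', hb']
    exact congrArg Subtype.val h1
  have e2 : T.nc (T.cl b) (T.cl a) = T.one Y := by
    rw [ha', hb']
    exact congrArg Subtype.val h2
  refine ⟨a, ha, b, hb, ?_, ?_⟩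
  · rw [← T.cl_eq, ← T.nc_cl, e1]
    rfl
  · rw [← T.cl_eq, ← T.nc_cl, e2]
    rfl

/-- correspondences in `Thin` come from varieties of dimension at most one -/
lemma thin_le (T : TraceTheory 𝒱) {i : ℤ} {X Y : 𝒱} : Thin T i X Y ≤ Via (fun Z => T.dim Z ≤ 1) X Y := by
  refine sup_le le_rfl (Submodule.span_le.2 ?_)
  rintro _ ⟨D, D', a, z, b, hD, ha, hz, hb, rfl⟩
  refine via_left a (via_right (small_codim T.toChowTheory (fun Z hZ => hZ) D D' ?_ hz) b)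
  omega

theorem orlov_curves (T : FieldTheory 𝒱) {X Y : 𝒱} (hXY : T.dim X = T.dim Y) (hiso : IsoLow T.toTraceTheory X Y)
    {v : X ⟶ Y} {w : Y ⟶ X} (hvw : v ≫ w = 𝟙 X) (hwv : w ≫ v = 𝟙 Y) {f : X ⟶ Y} (hf : f ∈ T.gr X Y 0) {g : Y ⟶ X}
    (hg : g ∈ T.gr Y X 0) (hfg : f ≫ g - 𝟙 X ∈ Via (fun Z => T.dim Z ≤ 1) X X)
    (hgf : g ≫ f - 𝟙 Y ∈ Via (fun Z => T.dim Z ≤ 1) Y Y) : T.ChowIso X Y :=
  units T.toChowTheory (fun _ _ _ _ J hJ u v huv hvu => Pool.Agent.L0h14.OR.lift_units J hJ u v huv hvu)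
    T.curves hf hg hfg hgf
    (num T.toTraceTheory (fun C hC p hp i => count T hXY hiso hvw hwv C hC p hp i) hf hg hfg hgf)

/-- the components of degree zero -/
lemma z0_inv (T : TraceTheory 𝒱) {X Y : 𝒱} {v : X ⟶ Y} {w : Y ⟶ X} (hvw : v ≫ w = 𝟙 X)
    (hv : ∀ i < 0, cmp (T.isInternal X Y) i v ∈ Thin T i X Y) (hw : ∀ i < 0, cmp (T.isInternal Y X) i w ∈ Thin T i Y X) :
    cmp (T.isInternal X Y) 0 v ≫ cmp (T.isInternal Y X) 0 w - 𝟙 X ∈ Via (fun Z => T.dim Z ≤ 1) X X := by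
  have h := z0_comp T.toCor v w (Via (fun Z => T.dim Z ≤ 1) X X) (fun i hi => by
    rcases lt_or_gt_of_ne hi with h | h
    · exact via_right (thin_le T (hv i h)) _
    · exact via_left _ (thin_le T (hw (-i) (by omega))))
  have e1 : cmp (T.isInternal X X) 0 (v ≫ w) = 𝟙 X := by
    rw [hvw]
    exact cmp_of_mem _ (T.id_mem X)
  rw [e1] at h
  have := neg_mem h
  rwa [neg_sub] at this

/-- The main theorem. -/
theorem orlov (T : FieldTheory 𝒱) {X Y : 𝒱} (hXY : T.dim X = T.dim Y) {v : X ⟶ Y} {w : Y ⟶ X} (hvw : v ≫ w = 𝟙 X)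
    (hwv : w ≫ v = 𝟙 Y) (hiso : IsoLow T.toTraceTheory X Y)
    (h : (∀ i < 0, cmp (T.isInternal X Y) i v ∈ Thin T.toTraceTheory i X Y ∧
        cmp (T.isInternal Y X) i w ∈ Thin T.toTraceTheory i Y X) ∨
      ∃ f ∈ T.gr X Y 0, ∃ g ∈ T.gr Y X 0, f ≫ g - 𝟙 X ∈ Thin T.toTraceTheory 0 X X ∧
        g ≫ f - 𝟙 Y ∈ Thin T.toTraceTheory 0 Y Y) : T.ChowIso X Y := by
  rcases h with h | ⟨f, hf, g, hg, h1, h2⟩
  · exact orlov_curves T hXY hiso hvw hwv (cmp_mem (T.isInternal X Y) 0 v) (cmp_mem (T.isInternal Y X) 0 w)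
      (z0_inv T.toTraceTheory hvw (fun i hi => (h i hi).1) (fun i hi => (h i hi).2))
      (z0_inv T.toTraceTheory hwv (fun i hi => (h i hi).2) (fun i hi => (h i hi).1))
  · exact orlov_curves T hXY hiso hvw hwv hf hg (thin_le T.toTraceTheory h1) (thin_le T.toTraceTheory h2)

end Pool.Agent.L0h14.OG
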